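import Mathlib
import Pool.Agent.R974.BW.Defs

/-!
Project BW (helper974), piece REF: the reflection principle (helper606).
-/

set_option autoImplicit false

namespace Pool.Agent.R606.BW

open MeasureTheory ProbabilityTheory Filter Topology Set
open Pool.Agent.R967.FB Pool.Agent.R974.BW
open scoped ENNReal NNReal

/-- two finite measures on the line without mass on `(-∞, 0]` -/
theorem meas_ext (μ ν : Measure ℝ) [IsFiniteMeasure μ] [IsFiniteMeasure ν] (h1 : μ (Iic 0) = 0)
    (h2 : ν (Iic 0) = 0)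
    (h : ∀ a : ℝ, 0 ≤ a → ∀ n : ℕ, ∫ y, min 1 (n * max (y - a) 0) ∂μ =
      ∫ y, min 1 (n * max (y - a) 0) ∂ν) : μ = ν := by
  have key : ∀ (μ : Measure ℝ) [IsFiniteMeasure μ] (a : ℝ),
      Tendsto (fun n : ℕ => ∫ y, min 1 ((n : ℝ) * max (y - a) 0) ∂μ) atTop
        (𝓝 (μ.real (Ioi a))) := by
    intro μ _ a
    have e1 : μ.real (Ioi a) = ∫ y, (Ioi a).indicator (fun _ => (1 : ℝ)) y ∂μ := by
      rw [integral_indicator measurableSet_Ioi, setIntegral_const, smul_eq_mul, mul_one]
    rw [e1]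
    refine tendsto_integral_of_dominated_convergence (fun _ => (1 : ℝ)) (fun n => ?_)
      (integrable_const _) (fun n => ae_of_all _ fun y => ?_) (ae_of_all _ fun y => ?_)
    · exact (Continuous.aestronglyMeasurable (by fun_prop))
    · rw [Real.norm_eq_abs, abs_of_nonneg (le_min zero_le_one (by positivity))]
      exact min_le_left _ _
    · by_cases hy : a < y
      · rw [indicator_of_mem (mem_Ioi.2 hy)]
        have h3 : Tendsto (fun n : ℕ => (n : ℝ) * max (y - a) 0) atTop atTop :=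
          tendsto_natCast_atTop_atTop.atTop_mul_const (lt_max_of_lt_left (sub_pos.2 hy))
        refine tendsto_const_nhds.congr' ?_
        filter_upwards [h3.eventually_ge_atTop 1] with n hn
        rw [min_eq_left hn]
      · rw [indicator_of_notMem (by rw [mem_Ioi]; exact hy)]
        refine tendsto_const_nhds.congr fun n => ?_
        rw [max_eq_right (by linarith [not_lt.1 hy]), mul_zero, min_eq_right zero_le_one]
  have hpos : ∀ a : ℝ, 0 ≤ a → μ (Ioi a) = ν (Ioi a) := by
    intro a ha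
    have h3 : μ.real (Ioi a) = ν.real (Ioi a) := by
      refine tendsto_nhds_unique (key μ a) ?_
      simp_rw [h a ha]
      exact key ν a
    rwa [measureReal_def, measureReal_def, ENNReal.toReal_eq_toReal_iff' (measure_ne_top _ _)
      (measure_ne_top _ _)] at h3
  have hneg : ∀ (μ : Measure ℝ) (a : ℝ), μ (Iic 0) = 0 → a ≤ 0 → μ (Ioi a) = μ (Ioi 0) := by
    intro μ a h3 ha
    refine le_antisymm ?_ (measure_mono (Ioi_subset_Ioi ha))
    calc μ (Ioi a) ≤ μ (Iic 0 ∪ Ioi 0) := measure_mono (by rw [Iic_union_Ioi]; exact subset_univ _)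
      _ ≤ μ (Iic 0) + μ (Ioi 0) := measure_union_le _ _
      _ = μ (Ioi 0) := by rw [h3, zero_add]
  have hall : ∀ a : ℝ, μ (Ioi a) = ν (Ioi a) := by
    intro a
    rcases le_total 0 a with ha | ha
    · exact hpos a ha
    · rw [hneg μ a h1 ha, hneg ν a h2 ha]
      exact hpos 0 le_rfl
  have huniv : μ univ = ν univ := by
    have h4 : ∀ (μ : Measure ℝ), μ (Iic 0) = 0 → μ univ = μ (Ioi 0) := by
      intro μ h3
      refine le_antisymm ?_ (measure_mono (subset_univ _))
      calc μ univ = μ (Iic 0 ∪ Ioi 0) := by rw [Iic_union_Ioi]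
        _ ≤ μ (Iic 0) + μ (Ioi 0) := measure_union_le _ _
        _ = μ (Ioi 0) := by rw [h3, zero_add]
    rw [h4 μ h1, h4 ν h2, hpos 0 le_rfl]
  refine Measure.ext_of_Iic μ ν fun a => ?_
  rw [← compl_Ioi, measure_compl measurableSet_Ioi (measure_ne_top _ _),
    measure_compl measurableSet_Ioi (measure_ne_top _ _), huniv, hall]

theorem measurable_stp (s : ℝ≥0) : Measurable (stp s) :=
  measurable_path fun t => measurable_eval (min t s)

theorem map_pair (hM : S_MKV) {W : Measure Pth} (hW : IsWiener W) (s : ℝ≥0) :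
    W.map (fun w => (stp s w, shift s w)) = (W.map (stp s)).prod W := by
  have hWp : IsProbabilityMeasure W := hW.isGaussianProcess.isProbabilityMeasure
  have hm : Measurable (fun w : Pth => (stp s w, shift s w)) :=
    (measurable_stp s).prodMk (measurable_shift s)
  ext B hB
  have h1 := hM W hW s (B.indicator fun _ => 1) (measurable_const.indicator hB)
  rw [Measure.map_apply hm hB, Measure.prod_apply hB,
    lintegral_map (measurable_measure_prodMk_left hB) (measurable_stp s)]
  have h2 : ∫⁻ w, B.indicator (fun _ => (1 : ℝ≥0∞)) (stp s w, shift s w) ∂W =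
      W ((fun w => (stp s w, shift s w)) ⁻¹' B) := by
    have : (fun w => B.indicator (fun _ => (1 : ℝ≥0∞)) (stp s w, shift s w)) =
        ((fun w => (stp s w, shift s w)) ⁻¹' B).indicator (fun _ => 1) := rfl
    rw [this, lintegral_indicator (hm hB)]
    simp
  have h3 : ∀ w₁ : Pth, ∫⁻ w₂, B.indicator (fun _ => (1 : ℝ≥0∞)) (stp s w₁, w₂) ∂W =
      W (Prod.mk (stp s w₁) ⁻¹' B) := by
    intro w₁
    have : (fun w₂ => B.indicator (fun _ => (1 : ℝ≥0∞)) (stp s w₁, w₂)) =
        (Prod.mk (stp s w₁) ⁻¹' B).indicator (fun _ => 1) := rfl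
    rw [this, lintegral_indicator (measurable_prodMk_left hB)]
    simp
  rw [← h2, h1]
  exact lintegral_congr h3

/-- the Markov property for a bounded function of one later value -/
theorem markov (hM : S_MKV) {W : Measure Pth} (hW : IsWiener W) (s r : ℝ≥0) (A : Set Pth)
    (hA : MeasurableSet A) (hA' : ∀ w, stp s w ∈ A ↔ w ∈ A) (g : ℝ → ℝ) (hg : Continuous g)
    (hgb : ∀ y, |g y| ≤ 1) (x : ℝ) :
    ∫ w in A, g (x + w (s + r)) ∂W = ∫ w in A, (∫ w', g (x + w s + w' r) ∂W) ∂W := by
  classical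
  have hWp : IsProbabilityMeasure W := hW.isGaussianProcess.isProbabilityMeasure
  have hsp : IsProbabilityMeasure (W.map (stp s)) :=
    Measure.isProbabilityMeasure_map (measurable_stp s).aemeasurable
  let Φ : Pth × Pth → ℝ := fun p => if p.1 ∈ A then g (x + p.1 s + p.2 r) else 0
  have hΦm : Measurable Φ := by
    refine Measurable.ite (measurable_fst hA) ?_ measurable_const
    exact hg.measurable.comp ((measurable_const.add ((measurable_eval s).comp measurable_fst)).add
      ((measurable_eval r).comp measurable_snd))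
  have hΦb : ∀ p, ‖Φ p‖ ≤ 1 := by
    intro p
    change ‖if p.1 ∈ A then g (x + p.1 s + p.2 r) else 0‖ ≤ 1
    split_ifs
    · exact hgb _
    · simp
  have hm : Measurable (fun w : Pth => (stp s w, shift s w)) :=
    (measurable_stp s).prodMk (measurable_shift s)
  have h1 : ∫ w, Φ (stp s w, shift s w) ∂W = ∫ w, (∫ w', Φ (stp s w, w') ∂W) ∂W := by
    rw [← integral_map hm.aemeasurable hΦm.aestronglyMeasurable, map_pair hM hW s,
      integral_prod _ (Integrable.of_bound hΦm.aestronglyMeasurable 1 (ae_of_all _ hΦb)),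
      integral_map (measurable_stp s).aemeasurable]
    exact (StronglyMeasurable.integral_prod_right' hΦm.stronglyMeasurable).aestronglyMeasurable
  have h2 : ∀ w : Pth, Φ (stp s w, shift s w) = A.indicator (fun w => g (x + w (s + r))) w := by
    intro w
    change (if stp s w ∈ A then g (x + w (min s s) + (w (s + r) - w s)) else 0) = _
    rw [min_self]
    by_cases hw : w ∈ A
    · rw [if_pos ((hA' w).2 hw), indicator_of_mem hw]
      congr 1
      ring
    · rw [if_neg (fun h => hw ((hA' w).1 h)), indicator_of_notMem hw]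
  have h3 : ∀ w : Pth, ∫ w', Φ (stp s w, w') ∂W =
      A.indicator (fun w => ∫ w', g (x + w s + w' r) ∂W) w := by
    intro w
    by_cases hw : w ∈ A
    · rw [indicator_of_mem hw]
      refine integral_congr_ae (ae_of_all _ fun w' => ?_)
      change (if stp s w ∈ A then g (x + w (min s s) + w' r) else 0) = _
      rw [min_self, if_pos ((hA' w).2 hw)]
    · rw [indicator_of_notMem hw]
      have : ∀ w', Φ (stp s w, w') = 0 := fun w' => if_neg (fun h => hw ((hA' w).1 h))
      simp [this]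
  simp only [h2, h3] at h1
  rw [integral_indicator hA, integral_indicator hA] at h1
  exact h1

theorem gauss_odd (v : ℝ≥0) (g : ℝ → ℝ) (hg : Continuous g) (hgo : ∀ y, g (-y) = -g y) :
    ∫ z, g z ∂(gaussianReal 0 v) = 0 := by
  have h1 : ∫ z, g z ∂(gaussianReal 0 v) = ∫ z, g (-z) ∂(gaussianReal 0 v) := by
    have h2 : (gaussianReal 0 v).map (fun z => -z) = gaussianReal 0 v := by
      have := gaussianReal_map_neg (μ := 0) (v := v)
      rwa [neg_zero] at this
    conv_lhs => rw [← h2]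
    rw [integral_map (by fun_prop) hg.aestronglyMeasurable]
  simp only [hgo] at h1
  rw [integral_neg] at h1
  linarith

theorem eval_law {W : Measure Pth} (hW : IsWiener W) (t : ℝ≥0) (f : ℝ → ℝ) (hf : Continuous f) :
    ∫ w, f (w t) ∂W = ∫ z, f z ∂(gaussianReal 0 t) := by
  have h1 := (hW.toIsPreBrownianReal.hasLaw_eval t).map_eq
  rw [← h1, integral_map (measurable_eval t).aemeasurable hf.aestronglyMeasurable]

/-- the value function is small near zero -/
theorem V_le {W : Measure Pth} (hW : IsWiener W) (g : ℝ → ℝ) (hg : Continuous g)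
    (hgb : ∀ y, |g y| ≤ 1) (hgo : ∀ y, g (-y) = -g y) (L : ℝ)
    (hgL : ∀ a b, |g a - g b| ≤ L * |a - b|) (r : ℝ≥0) (y : ℝ) :
    |∫ w, g (y + w r) ∂W| ≤ min 1 (L * |y|) := by
  have hWp : IsProbabilityMeasure W := hW.isGaussianProcess.isProbabilityMeasure
  have hint : ∀ y : ℝ, Integrable (fun w : Pth => g (y + w r)) W := by
    intro y
    refine Integrable.of_bound ?_ 1 (ae_of_all _ fun w => hgb _)
    exact (hg.measurable.comp (measurable_const.add (measurable_eval r))).aestronglyMeasurable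
  refine le_min ?_ ?_
  · have := norm_integral_le_of_norm_le_const (μ := W) (f := fun w : Pth => g (y + w r)) (C := 1)
      (ae_of_all _ fun w => hgb _)
    simpa using this
  · have h0 : ∫ w, g (0 + w r) ∂W = 0 := by
      simp only [zero_add]
      rw [eval_law hW r g hg, gauss_odd r g hg hgo]
    have h1 : ∫ w, g (y + w r) ∂W = ∫ w, (g (y + w r) - g (0 + w r)) ∂W := by
      rw [integral_sub (hint y) (hint 0), h0, sub_zero]
    rw [h1]
    have := norm_integral_le_of_norm_le_const (μ := W)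
      (f := fun w : Pth => g (y + w r) - g (0 + w r)) (C := L * |y|)
      (ae_of_all _ fun w => by
        rw [Real.norm_eq_abs]
        refine (hgL _ _).trans (le_of_eq ?_)
        congr 2
        ring)
    simpa using this

/-- the grid -/
noncomputable def tk (t : ℝ≥0) (n k : ℕ) : ℝ≥0 := t * k / (n + 1)

theorem tk_zero (t : ℝ≥0) (n : ℕ) : tk t n 0 = 0 := by simp [tk]

theorem tk_last (t : ℝ≥0) (n : ℕ) : tk t n (n + 1) = t := by
  unfold tk
  push_cast
  rw [mul_div_assoc, div_self (by positivity), mul_one]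

theorem tk_mono (t : ℝ≥0) (n : ℕ) {j k : ℕ} (h : j ≤ k) : tk t n j ≤ tk t n k := by
  unfold tk
  gcongr

theorem tk_le (t : ℝ≥0) (n : ℕ) {k : ℕ} (h : k ≤ n + 1) : tk t n k ≤ t := by
  have := tk_mono t n h
  rwa [tk_last] at this

/-- positive on the grid up to `k` -/
def Bs (x : ℝ) (t : ℝ≥0) (n k : ℕ) : Set Pth := {w | ∀ j ≤ k, 0 < x + w (tk t n j)}

theorem meas_Bs (x : ℝ) (t : ℝ≥0) (n k : ℕ) : MeasurableSet (Bs x t n k) := by
  have : Bs x t n k = ⋂ j : ℕ, ⋂ _ : j ≤ k, {w : Pth | 0 < x + w (tk t n j)} := by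
    ext w
    simp only [Bs, mem_ofPred_eq, mem_iInter]
  rw [this]
  exact MeasurableSet.iInter fun j => MeasurableSet.iInter fun _ =>
    measurableSet_lt measurable_const (measurable_const.add (measurable_eval _))

theorem Bs_anti (x : ℝ) (t : ℝ≥0) (n k : ℕ) : Bs x t n (k + 1) ⊆ Bs x t n k :=
  fun _ hw j hj => hw j (hj.trans (Nat.le_succ k))

theorem stp_Bs (x : ℝ) (t : ℝ≥0) (n k m : ℕ) (h : k ≤ m) (w : Pth) :
    stp (tk t n m) w ∈ Bs x t n k ↔ w ∈ Bs x t n k := by
  have h1 : ∀ j ≤ k, stp (tk t n m) w (tk t n j) = w (tk t n j) := by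
    intro j hj
    change w (min (tk t n j) (tk t n m)) = w (tk t n j)
    rw [min_eq_left (tk_mono t n (hj.trans h))]
  constructor
  · intro hw j hj
    have := hw j hj
    rwa [h1 j hj] at this
  · intro hw j hj
    rw [h1 j hj]
    exact hw j hj

/-- the error of the step `k` -/
noncomputable def er (L : ℝ) (t : ℝ≥0) (n k : ℕ) (w : Pth) : ℝ :=
  min 1 (L * |w (tk t n (k + 1)) - w (tk t n k)|)

theorem meas_er (L : ℝ) (t : ℝ≥0) (n k : ℕ) : Measurable (er L t n k) :=
  measurable_const.min (measurable_const.mul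
    (((measurable_eval _).sub (measurable_eval _)).norm))

/-- the total error -/
noncomputable def Rn (x L : ℝ) (t : ℝ≥0) (n : ℕ) (w : Pth) : ℝ :=
  ∑ k ∈ Finset.range (n + 1), (Bs x t n k \ Bs x t n (k + 1)).indicator (er L t n k) w

theorem er_nonneg {L : ℝ} (hL : 0 ≤ L) (t : ℝ≥0) (n k : ℕ) (w : Pth) : 0 ≤ er L t n k w :=
  le_min zero_le_one (mul_nonneg hL (abs_nonneg _))

theorem er_le_one (L : ℝ) (t : ℝ≥0) (n k : ℕ) (w : Pth) : er L t n k w ≤ 1 := min_le_left _ _

theorem er_int {W : Measure Pth} [IsProbabilityMeasure W] {L : ℝ} (hL : 0 ≤ L) (t : ℝ≥0)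
    (n k : ℕ) : Integrable (er L t n k) W :=
  Integrable.of_bound (meas_er L t n k).aestronglyMeasurable 1 (ae_of_all _ fun w => by
    rw [Real.norm_eq_abs, abs_of_nonneg (er_nonneg hL t n k w)]
    exact er_le_one L t n k w)

theorem grid (hM : S_MKV) {W : Measure Pth} (hW : IsWiener W) (g : ℝ → ℝ) (hg : Continuous g)
    (hgb : ∀ y, |g y| ≤ 1) (hgo : ∀ y, g (-y) = -g y) (L : ℝ) (hL : 0 ≤ L)
    (hgL : ∀ a b, |g a - g b| ≤ L * |a - b|) (x : ℝ) (hx : 0 < x) (t : ℝ≥0) (n : ℕ) :
    |∫ w, g (x + w t) ∂W - ∫ w in Bs x t n (n + 1), g (x + w t) ∂W| ≤ ∫ w, Rn x L t n w ∂W := by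
  have hWp : IsProbabilityMeasure W := hW.isGaussianProcess.isProbabilityMeasure
  have hint : Integrable (fun w : Pth => g (x + w t)) W :=
    Integrable.of_bound (hg.measurable.comp
      (measurable_const.add (measurable_eval t))).aestronglyMeasurable 1 (ae_of_all _ fun w => hgb _)
  have h0 : ∫ w, g (x + w t) ∂W = ∫ w in Bs x t n 0, g (x + w t) ∂W := by
    rw [Measure.restrict_eq_self_of_ae_mem]
    filter_upwards [hW.toIsPreBrownianReal.eval_zero_ae_eq_zero] with w hw
    intro j hj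
    rw [Nat.le_zero.1 hj, tk_zero]
    have hw' : w 0 = 0 := hw
    rw [hw', add_zero]
    exact hx
  have h1 : ∫ w in Bs x t n 0, g (x + w t) ∂W - ∫ w in Bs x t n (n + 1), g (x + w t) ∂W =
      ∑ k ∈ Finset.range (n + 1), ∫ w in Bs x t n k \ Bs x t n (k + 1), g (x + w t) ∂W := by
    rw [← Finset.sum_range_sub' (fun k => ∫ w in Bs x t n k, g (x + w t) ∂W)]
    refine Finset.sum_congr rfl fun k _ => ?_
    rw [setIntegral_sdiff (meas_Bs x t n (k + 1)) hint.integrableOn (Bs_anti x t n k)]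
  have hCm : ∀ k, MeasurableSet (Bs x t n k \ Bs x t n (k + 1)) := fun k =>
    (meas_Bs x t n k).diff (meas_Bs x t n (k + 1))
  have h2 : ∀ k ∈ Finset.range (n + 1),
      |∫ w in Bs x t n k \ Bs x t n (k + 1), g (x + w t) ∂W| ≤
        ∫ w, (Bs x t n k \ Bs x t n (k + 1)).indicator (er L t n k) w ∂W := by
    intro k hk
    have hk' : k + 1 ≤ n + 1 := Finset.mem_range.1 hk
    have hst : tk t n (k + 1) + (t - tk t n (k + 1)) = t := add_tsub_cancel_of_le (tk_le t n hk')
    have h3 := markov hM hW (tk t n (k + 1)) (t - tk t n (k + 1))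
      (Bs x t n k \ Bs x t n (k + 1)) (hCm k) (fun w => by
        rw [Set.mem_sdiff, Set.mem_sdiff, stp_Bs x t n k (k + 1) (Nat.le_succ k),
          stp_Bs x t n (k + 1) (k + 1) le_rfl]) g hg hgb x
    rw [hst] at h3
    rw [h3, integral_indicator (hCm k)]
    refine abs_integral_le_integral_abs.trans ?_
    refine setIntegral_mono_on ?_ (er_int hL t n k).integrableOn (hCm k) ?_
    · refine (Integrable.of_bound ?_ 1 (ae_of_all _ fun w => ?_)).integrableOn
      · have hm2 : StronglyMeasurable (fun p : Pth × Pth =>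
            g (x + p.1 (tk t n (k + 1)) + p.2 (t - tk t n (k + 1)))) :=
          (hg.measurable.comp ((measurable_const.add ((measurable_eval _).comp measurable_fst)).add
            ((measurable_eval _).comp measurable_snd))).stronglyMeasurable
        exact (hm2.integral_prod_right' (ν := W)).norm.aestronglyMeasurable
      · rw [Real.norm_eq_abs, abs_abs]
        exact (V_le hW g hg hgb hgo L hgL _ _).trans (min_le_left _ _)
    · intro w hw
      refine (V_le hW g hg hgb hgo L hgL _ _).trans ?_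
      have h4 : 0 < x + w (tk t n k) := hw.1 k le_rfl
      have h5 : x + w (tk t n (k + 1)) ≤ 0 := by
        by_contra hcon
        apply hw.2
        intro j hj
        rcases Nat.lt_or_ge j (k + 1) with h6 | h6
        · exact hw.1 j (Nat.lt_succ_iff.1 h6)
        · have : j = k + 1 := le_antisymm hj h6
          rw [this]
          exact not_le.1 hcon
      unfold er
      refine min_le_min le_rfl (mul_le_mul_of_nonneg_left ?_ hL)
      rw [abs_of_nonpos h5, abs_of_nonpos (by linarith)]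
      linarith
  rw [h0, h1]
  refine (Finset.abs_sum_le_sum_abs _ _).trans ((Finset.sum_le_sum h2).trans (le_of_eq ?_))
  unfold Rn
  rw [integral_finsetSum]
  intro k _
  exact (er_int hL t n k).indicator (hCm k)

theorem Rn_nonneg (x : ℝ) {L : ℝ} (hL : 0 ≤ L) (t : ℝ≥0) (n : ℕ) (w : Pth) : 0 ≤ Rn x L t n w :=
  Finset.sum_nonneg fun k _ => indicator_nonneg (fun w _ => er_nonneg hL t n k w) w

theorem Rn_le (x : ℝ) (L : ℝ) (t : ℝ≥0) (n : ℕ) (w : Pth) (E : ℝ) (hE : 0 ≤ E)
    (h : ∀ k ≤ n, er L t n k w ≤ E) : Rn x L t n w ≤ E := by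
  have h1 : ∀ k ∈ Finset.range (n + 1),
      (Bs x t n k \ Bs x t n (k + 1)).indicator (er L t n k) w ≤
        E * (Bs x t n k).indicator (fun _ => (1 : ℝ)) w -
          E * (Bs x t n (k + 1)).indicator (fun _ => (1 : ℝ)) w := by
    intro k hk
    have hk' : k ≤ n := Nat.lt_succ_iff.1 (Finset.mem_range.1 hk)
    by_cases h2 : w ∈ Bs x t n (k + 1)
    · have h3 : w ∈ Bs x t n k := Bs_anti x t n k h2
      rw [indicator_of_mem h2, indicator_of_mem h3, indicator_of_notMem (fun h4 => h4.2 h2)]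
      linarith
    · by_cases h3 : w ∈ Bs x t n k
      · rw [indicator_of_notMem h2, indicator_of_mem h3, indicator_of_mem (show w ∈ Bs x t n k \ Bs x t n (k + 1) from ⟨h3, h2⟩)]
        have := h k hk'
        linarith
      · rw [indicator_of_notMem h2, indicator_of_notMem h3,
          indicator_of_notMem (fun h4 => h3 h4.1)]
        linarith
  refine (Finset.sum_le_sum h1).trans ?_
  rw [Finset.sum_range_sub' (fun k => E * (Bs x t n k).indicator (fun _ => (1 : ℝ)) w)]
  have h2 : (Bs x t n 0).indicator (fun _ => (1 : ℝ)) w ≤ 1 :=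
    indicator_le_self' (fun _ _ => zero_le_one) w |>.trans le_rfl
  have h3 : 0 ≤ (Bs x t n (n + 1)).indicator (fun _ => (1 : ℝ)) w :=
    indicator_nonneg (fun _ _ => zero_le_one) w
  have h4 : 0 ≤ E * (Bs x t n (n + 1)).indicator (fun _ => (1 : ℝ)) w := mul_nonneg hE h3
  have h5 : E * (Bs x t n 0).indicator (fun _ => (1 : ℝ)) w ≤ E * 1 :=
    mul_le_mul_of_nonneg_left h2 hE
  linarith

theorem step_small (t : ℝ≥0) (δ : ℝ) (hδ : 0 < δ) : ∀ᶠ n : ℕ in atTop, (t : ℝ) / ((n : ℝ) + 1) < δ := by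
  have h1 : Tendsto (fun n : ℕ => (t : ℝ) * (1 / ((n : ℝ) + 1))) atTop (𝓝 ((t : ℝ) * 0)) :=
    tendsto_one_div_add_atTop_nhds_zero_nat.const_mul _
  rw [mul_zero] at h1
  filter_upwards [h1.eventually (gt_mem_nhds hδ)] with n hn
  rwa [mul_one_div] at hn

theorem tk_succ_sub (t : ℝ≥0) (n k : ℕ) :
    (tk t n (k + 1) : ℝ) - (tk t n k : ℝ) = (t : ℝ) / ((n : ℝ) + 1) := by
  unfold tk
  push_cast
  ring

theorem Rn_tendsto (x : ℝ) {L : ℝ} (hL : 0 ≤ L) (t : ℝ≥0) (w : Pth) :
    Tendsto (fun n => Rn x L t n w) atTop (𝓝 0) := by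
  rw [Metric.tendsto_atTop]
  intro ε hε
  have hu : UniformContinuousOn w (Icc 0 t) :=
    isCompact_Icc.uniformContinuousOn_of_continuous w.continuous.continuousOn
  rw [Metric.uniformContinuousOn_iff] at hu
  obtain ⟨δ, hδ, h1⟩ := hu (ε / (2 * (L + 1))) (by positivity)
  obtain ⟨N, hN⟩ := eventually_atTop.1 (step_small t δ hδ)
  refine ⟨N, fun n hn => ?_⟩
  rw [Real.dist_0_eq_abs, abs_of_nonneg (Rn_nonneg x hL t n w)]
  refine lt_of_le_of_lt (Rn_le x L t n w (ε / 2) (by positivity) fun k hk => ?_) (by linarith)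
  unfold er
  refine (min_le_right _ _).trans ?_
  have h2 := h1 (tk t n (k + 1)) ⟨zero_le, tk_le t n (by omega)⟩ (tk t n k)
    ⟨zero_le, tk_le t n (by omega)⟩ (by
      rw [NNReal.dist_eq, tk_succ_sub, abs_of_nonneg (by positivity)]
      exact hN n hn)
  rw [Real.dist_eq] at h2
  calc L * |w (tk t n (k + 1)) - w (tk t n k)| ≤ (L + 1) * (ε / (2 * (L + 1))) :=
        mul_le_mul (by linarith) h2.le (abs_nonneg _) (by linarith)
    _ = ε / 2 := by field_simp

theorem grid_lim (hM : S_MKV) {W : Measure Pth} (hW : IsWiener W) (g : ℝ → ℝ) (hg : Continuous g)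
    (hgb : ∀ y, |g y| ≤ 1) (hgo : ∀ y, g (-y) = -g y) (L : ℝ) (hL : 0 ≤ L)
    (hgL : ∀ a b, |g a - g b| ≤ L * |a - b|) (x : ℝ) (hx : 0 < x) (t : ℝ≥0) :
    Tendsto (fun n => ∫ w in Bs x t n (n + 1), g (x + w t) ∂W) atTop
      (𝓝 (∫ w, g (x + w t) ∂W)) := by
  have hWp : IsProbabilityMeasure W := hW.isGaussianProcess.isProbabilityMeasure
  have h1 : Tendsto (fun n => ∫ w, Rn x L t n w ∂W) atTop (𝓝 (∫ _w : Pth, (0 : ℝ) ∂W)) := by
    refine tendsto_integral_of_dominated_convergence (fun _ => (1 : ℝ)) (fun n => ?_)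
      (integrable_const _) (fun n => ae_of_all _ fun w => ?_)
      (ae_of_all _ fun w => Rn_tendsto x hL t w)
    · refine Measurable.aestronglyMeasurable ?_
      refine Finset.measurable_sum _ fun k _ => ?_
      exact (meas_er L t n k).indicator ((meas_Bs x t n k).diff (meas_Bs x t n (k + 1)))
    · rw [Real.norm_eq_abs, abs_of_nonneg (Rn_nonneg x hL t n w)]
      exact Rn_le x L t n w 1 zero_le_one fun k _ => er_le_one L t n k w
  rw [integral_zero] at h1
  rw [tendsto_iff_dist_tendsto_zero]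
  refine squeeze_zero (fun n => dist_nonneg) (fun n => ?_) h1
  rw [dist_comm, Real.dist_eq]
  exact grid hM hW g hg hgb hgo L hL hgL x hx t n

/-- nonnegative on `[0, t]` -/
def Nn (x : ℝ) (t : ℝ≥0) : Set Pth := {w | ∀ s : ℝ≥0, s ≤ t → 0 ≤ x + w s}

theorem meas_Nn (x : ℝ) (t : ℝ≥0) : MeasurableSet (Nn x t) := by
  have h1 : Nn x t = ⋂ s : ℝ≥0, ⋂ _ : s ≤ t, {w : Pth | 0 ≤ x + w s} := by
    ext w
    simp only [Nn, mem_ofPred_eq, mem_iInter]
  rw [h1]
  refine IsClosed.measurableSet (isClosed_iInter fun s => isClosed_iInter fun _ => ?_)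
  exact isClosed_le continuous_const (continuous_const.add (continuous_eval_const s))

theorem meas_Up (x : ℝ) (t : ℝ≥0) : MeasurableSet (Up x t) := by
  have h1 : Up x t = {w : Pth | MapsTo w (Icc 0 t) (Ioi (-x))} := by
    ext w
    simp only [Up, mem_ofPred_eq, MapsTo, mem_Icc, mem_Ioi]
    constructor
    · intro h s hs
      have := h s hs.2
      linarith
    · intro h s hs
      have := h ⟨zero_le, hs⟩
      linarith
  rw [h1]
  exact (ContinuousMap.isOpen_setOfPred_mapsTo isCompact_Icc isOpen_Ioi).measurableSet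

theorem Up_Bs (x : ℝ) (t : ℝ≥0) (n : ℕ) : Up x t ⊆ Bs x t n (n + 1) :=
  fun _ hw _ hj => hw _ (tk_le t n hj)

/-- a path which becomes negative is seen by the grid -/
theorem not_Nn (x : ℝ) (t : ℝ≥0) (w : Pth) (hw : w ∉ Nn x t) :
    ∀ᶠ n in atTop, w ∉ Bs x t n (n + 1) := by
  have h1 : ∃ s : ℝ≥0, s ≤ t ∧ x + w s < 0 := by
    by_contra hcon
    push Not at hcon
    exact hw fun s hs => hcon s hs
  obtain ⟨s, hs, hws⟩ := h1
  have h2 : Tendsto (fun r : ℝ≥0 => x + w r) (𝓝 s) (𝓝 (x + w s)) :=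
    (continuous_const.add w.continuous).tendsto s
  obtain ⟨δ, hδ, h3⟩ := Metric.eventually_nhds_iff.1 (h2.eventually (gt_mem_nhds hws))
  filter_upwards [step_small t δ hδ] with n hn
  intro hB
  -- the last grid point before `s`
  classical
  have hex : ∃ k, k ≤ n + 1 ∧ tk t n k ≤ s := ⟨0, Nat.zero_le _, by rw [tk_zero]; exact zero_le⟩
  obtain ⟨k, ⟨hk1, hk2⟩, hk3⟩ : ∃ k, (k ≤ n + 1 ∧ tk t n k ≤ s) ∧
      ∀ j, (j ≤ n + 1 ∧ tk t n j ≤ s) → j ≤ k := by
    have hb : ∀ j, (j ≤ n + 1 ∧ tk t n j ≤ s) → j ≤ n + 1 := fun j hj => hj.1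
    exact ⟨Nat.findGreatest (fun j => j ≤ n + 1 ∧ tk t n j ≤ s) (n + 1),
      Nat.findGreatest_spec (P := fun j => j ≤ n + 1 ∧ tk t n j ≤ s) (Nat.zero_le _)
        ⟨Nat.zero_le _, by rw [tk_zero]; exact zero_le⟩,
      fun j hj => Nat.le_findGreatest hj.1 hj⟩
  have h4 : dist (tk t n k) s < δ := by
    rw [NNReal.dist_eq, abs_sub_comm, abs_of_nonneg (sub_nonneg.2 (by exact_mod_cast hk2))]
    refine lt_of_le_of_lt ?_ hn
    rcases Nat.lt_or_ge k (n + 1) with h5 | h5
    · have h6 : s < tk t n (k + 1) := by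
        by_contra hcon
        have := hk3 (k + 1) ⟨h5, not_lt.1 hcon⟩
        omega
      rw [← tk_succ_sub t n k]
      have h7 : (s : ℝ) < (tk t n (k + 1) : ℝ) := by exact_mod_cast h6
      linarith
    · have h6 : k = n + 1 := le_antisymm hk1 h5
      rw [h6, tk_last]
      have h7 : (s : ℝ) ≤ (t : ℝ) := by exact_mod_cast hs
      have h8 : 0 ≤ (t : ℝ) / ((n : ℝ) + 1) := by positivity
      linarith
  have h5 := h3 h4
  have h6 := hB k hk1
  linarith

/-- the class of test functions -/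
structure Tst (φ : ℝ → ℝ) (K : ℝ) : Prop where
  K0 : 0 ≤ K
  nn : ∀ y, 0 ≤ φ y
  le : ∀ y, φ y ≤ 1
  z : ∀ y, y ≤ 0 → φ y = 0
  lip : ∀ a b, |φ a - φ b| ≤ K * |a - b|

theorem Tst.cont {φ : ℝ → ℝ} {K : ℝ} (h : Tst φ K) : Continuous φ := by
  have h1 : LipschitzWith (Real.toNNReal K) φ := by
    refine LipschitzWith.of_dist_le_mul fun a b => ?_
    rw [Real.dist_eq, Real.dist_eq, Real.coe_toNNReal K h.K0]
    exact h.lip a b
  exact h1.continuous

/-- odd extension -/
def od (φ : ℝ → ℝ) (y : ℝ) : ℝ := φ y - φ (-y)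

theorem od_pos {φ : ℝ → ℝ} {K : ℝ} (h : Tst φ K) {y : ℝ} (hy : 0 ≤ y) : od φ y = φ y := by
  unfold od
  rw [h.z (-y) (by linarith), sub_zero]

theorem od_cont {φ : ℝ → ℝ} {K : ℝ} (h : Tst φ K) : Continuous (od φ) :=
  h.cont.sub (h.cont.comp continuous_neg)

theorem od_le {φ : ℝ → ℝ} {K : ℝ} (h : Tst φ K) (y : ℝ) : |od φ y| ≤ 1 := by
  unfold od
  rw [abs_le]
  have h1 := h.nn y
  have h2 := h.nn (-y)
  have h3 := h.le y
  have h4 := h.le (-y)
  constructor <;> linarith

theorem od_odd (φ : ℝ → ℝ) (y : ℝ) : od φ (-y) = -od φ y := by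
  unfold od
  rw [neg_neg]
  ring

theorem od_lip {φ : ℝ → ℝ} {K : ℝ} (h : Tst φ K) (a b : ℝ) :
    |od φ a - od φ b| ≤ (2 * K) * |a - b| := by
  unfold od
  have h1 := h.lip a b
  have h2 := h.lip (-a) (-b)
  have h3 : |(-a) - (-b)| = |a - b| := by rw [← abs_neg]; congr 1; ring
  rw [h3] at h2
  have h4 : φ a - φ (-a) - (φ b - φ (-b)) = (φ a - φ b) - (φ (-a) - φ (-b)) := by ring
  rw [h4]
  refine (abs_sub _ _).trans ?_
  linarith

theorem tst_int {W : Measure Pth} [IsProbabilityMeasure W] {φ : ℝ → ℝ} {K : ℝ} (h : Tst φ K)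
    (x : ℝ) (t : ℝ≥0) : Integrable (fun w : Pth => φ (x + w t)) W :=
  Integrable.of_bound (h.cont.measurable.comp
    (measurable_const.add (measurable_eval t))).aestronglyMeasurable 1 (ae_of_all _ fun w => by
      rw [Real.norm_eq_abs, abs_of_nonneg (h.nn _)]; exact h.le _)

theorem upper (hM : S_MKV) {W : Measure Pth} (hW : IsWiener W) {φ : ℝ → ℝ} {K : ℝ} (h : Tst φ K)
    (x : ℝ) (hx : 0 < x) (t : ℝ≥0) :
    ∫ w in Up x t, φ (x + w t) ∂W ≤ ∫ w, od φ (x + w t) ∂W := by
  have hWp : IsProbabilityMeasure W := hW.isGaussianProcess.isProbabilityMeasure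
  have h1 := grid_lim hM hW (od φ) (od_cont h) (od_le h) (od_odd φ) (2 * K)
    (mul_nonneg zero_le_two h.K0) (od_lip h) x hx t
  refine ge_of_tendsto' h1 fun n => ?_
  have h2 : ∫ w in Bs x t n (n + 1), od φ (x + w t) ∂W =
      ∫ w in Bs x t n (n + 1), φ (x + w t) ∂W := by
    refine setIntegral_congr_fun (meas_Bs x t n (n + 1)) fun w hw => ?_
    have h3 := hw (n + 1) le_rfl
    rw [tk_last] at h3
    exact od_pos h h3.le
  rw [h2]
  exact setIntegral_mono_set (tst_int h x t).integrableOn (ae_of_all _ fun w => h.nn _)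
    (ae_of_all _ fun w hw => Up_Bs x t n hw)

theorem lower (hM : S_MKV) {W : Measure Pth} (hW : IsWiener W) {φ : ℝ → ℝ} {K : ℝ} (h : Tst φ K)
    (x : ℝ) (hx : 0 < x) (t : ℝ≥0) :
    ∫ w, od φ (x + w t) ∂W ≤ ∫ w in Nn x t, φ (x + w t) ∂W := by
  have hWp : IsProbabilityMeasure W := hW.isGaussianProcess.isProbabilityMeasure
  have h1 := grid_lim hM hW (od φ) (od_cont h) (od_le h) (od_odd φ) (2 * K)
    (mul_nonneg zero_le_two h.K0) (od_lip h) x hx t
  have h5 : Tendsto (fun n => ∫ w, (Bs x t n (n + 1) \ Nn x t).indicator (fun _ => (1 : ℝ)) w ∂W)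
      atTop (𝓝 (∫ _w : Pth, (0 : ℝ) ∂W)) := by
    refine tendsto_integral_of_dominated_convergence (fun _ => (1 : ℝ)) (fun n => ?_)
      (integrable_const _) (fun n => ae_of_all _ fun w => ?_) (ae_of_all _ fun w => ?_)
    · exact (measurable_const.indicator
        ((meas_Bs x t n (n + 1)).diff (meas_Nn x t))).aestronglyMeasurable
    · rw [Real.norm_eq_abs, abs_of_nonneg (indicator_nonneg (fun _ _ => zero_le_one) w)]
      exact indicator_le_self' (fun _ _ => zero_le_one) w
    · by_cases hw : w ∈ Nn x t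
      · refine tendsto_const_nhds.congr fun n => ?_
        rw [indicator_of_notMem (fun h6 => h6.2 hw)]
      · refine tendsto_const_nhds.congr' ?_
        filter_upwards [not_Nn x t w hw] with n hn
        rw [indicator_of_notMem (fun h6 => hn h6.1)]
  rw [integral_zero] at h5
  have h6 : Tendsto (fun n => ∫ w in Nn x t, φ (x + w t) ∂W +
      ∫ w, (Bs x t n (n + 1) \ Nn x t).indicator (fun _ => (1 : ℝ)) w ∂W)
      atTop (𝓝 (∫ w in Nn x t, φ (x + w t) ∂W + 0)) := tendsto_const_nhds.add h5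
  rw [add_zero] at h6
  refine le_of_tendsto_of_tendsto' h1 h6 fun n => ?_
  have hm1 := meas_Bs x t n (n + 1)
  have h2 : ∫ w in Bs x t n (n + 1), od φ (x + w t) ∂W =
      ∫ w in Bs x t n (n + 1), φ (x + w t) ∂W := by
    refine setIntegral_congr_fun hm1 fun w hw => ?_
    have h3 := hw (n + 1) le_rfl
    rw [tk_last] at h3
    exact od_pos h h3.le
  rw [h2, ← integral_indicator hm1, ← integral_indicator (meas_Nn x t), ← integral_add
    ((tst_int h x t).indicator (meas_Nn x t))
    ((integrable_const (1 : ℝ)).indicator (hm1.diff (meas_Nn x t)))]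
  refine integral_mono ((tst_int h x t).indicator hm1) (((tst_int h x t).indicator
    (meas_Nn x t)).add ((integrable_const (1 : ℝ)).indicator (hm1.diff (meas_Nn x t)))) fun w => ?_
  change (Bs x t n (n + 1)).indicator (fun w => φ (x + w t)) w ≤
    (Nn x t).indicator (fun w => φ (x + w t)) w +
      (Bs x t n (n + 1) \ Nn x t).indicator (fun _ => (1 : ℝ)) w
  by_cases hB : w ∈ Bs x t n (n + 1)
  · by_cases hN : w ∈ Nn x t
    · rw [indicator_of_mem hB, indicator_of_mem hN, indicator_of_notMem (fun h6 => h6.2 hN),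
        add_zero]
    · rw [indicator_of_mem hB, indicator_of_notMem hN,
        indicator_of_mem (show w ∈ Bs x t n (n + 1) \ Nn x t from ⟨hB, hN⟩), zero_add]
      exact h.le _
  · rw [indicator_of_notMem hB]
    exact add_nonneg (indicator_nonneg (fun w _ => h.nn _) w)
      (indicator_nonneg (fun _ _ => zero_le_one) w)

theorem shift_lim (ν : Measure Pth) [IsFiniteMeasure ν] (f : ℝ → ℝ) (hf : Continuous f)
    (hfb : ∀ y, |f y| ≤ 1) (x : ℝ) (t : ℝ≥0) :
    Tendsto (fun m : ℕ => ∫ w, f (x - x * (1 / ((m : ℝ) + 1)) / 2 + w t) ∂ν) atTop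
      (𝓝 (∫ w, f (x + w t) ∂ν)) := by
  refine tendsto_integral_of_dominated_convergence (fun _ => (1 : ℝ)) (fun m => ?_)
    (integrable_const _) (fun m => ae_of_all _ fun w => hfb _) (ae_of_all _ fun w => ?_)
  · exact (hf.measurable.comp (measurable_const.add (measurable_eval t))).aestronglyMeasurable
  · have h1 : Tendsto (fun m : ℕ => x - x * (1 / ((m : ℝ) + 1)) / 2 + w t) atTop
        (𝓝 (x - x * 0 / 2 + w t)) :=
      ((tendsto_const_nhds.sub ((tendsto_one_div_add_atTop_nhds_zero_nat.const_mul x).div_const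
        2))).add_const _
    rw [mul_zero, zero_div, sub_zero] at h1
    exact (hf.tendsto _).comp h1

theorem refl_eq (hM : S_MKV) {W : Measure Pth} (hW : IsWiener W) {φ : ℝ → ℝ} {K : ℝ}
    (h : Tst φ K) (x : ℝ) (hx : 0 < x) (t : ℝ≥0) :
    ∫ w in Up x t, φ (x + w t) ∂W = ∫ w, od φ (x + w t) ∂W := by
  have hWp : IsProbabilityMeasure W := hW.isGaussianProcess.isProbabilityMeasure
  refine le_antisymm (upper hM hW h x hx t) ?_
  refine le_of_tendsto_of_tendsto' (shift_lim W (od φ) (od_cont h) (od_le h) x t)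
    (shift_lim (W.restrict (Up x t)) φ h.cont (fun y => by
      rw [abs_of_nonneg (h.nn y)]; exact h.le y) x t) fun m => ?_
  have h1 : 0 < (1 : ℝ) / ((m : ℝ) + 1) := by positivity
  have h2 : (1 : ℝ) / ((m : ℝ) + 1) ≤ 1 := by
    rw [div_le_one (by positivity)]
    have : (0 : ℝ) ≤ m := Nat.cast_nonneg m
    linarith
  have h3 : 0 < x * (1 / ((m : ℝ) + 1)) / 2 := by positivity
  have h4 : x * (1 / ((m : ℝ) + 1)) ≤ x * 1 := mul_le_mul_of_nonneg_left h2 hx.le
  have h5 : 0 < x - x * (1 / ((m : ℝ) + 1)) / 2 := by linarith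
  refine (lower hM hW h _ h5 t).trans ?_
  refine setIntegral_mono_set (tst_int h _ t).integrableOn (ae_of_all _ fun w => h.nn _)
    (ae_of_all _ fun w hw => ?_)
  intro s hs
  have := hw s hs
  linarith

theorem hk_eq (t : ℝ≥0) (x y : ℝ) :
    hk t x y = gaussianPDFReal x t y - gaussianPDFReal (-x) t y := by
  unfold hk gaussianPDFReal
  rw [sub_neg_eq_add, mul_sub]

theorem hk_int (t : ℝ≥0) (x : ℝ) : Integrable (fun y => hk t x y) := by
  simp only [hk_eq]
  exact (integrable_gaussianPDFReal x t).sub (integrable_gaussianPDFReal (-x) t)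

theorem hk_meas (t : ℝ≥0) (x : ℝ) : Measurable (fun y => hk t x y) := by
  simp only [hk_eq]
  exact (measurable_gaussianPDFReal x t).sub (measurable_gaussianPDFReal (-x) t)

theorem hk_nonneg (t : ℝ≥0) {x y : ℝ} (hx : 0 < x) (hy : 0 < y) : 0 ≤ hk t x y := by
  unfold hk
  refine mul_nonneg (by positivity) (sub_nonneg.2 (Real.exp_le_exp.2 ?_))
  refine div_le_div_of_nonneg_right ?_ (by positivity)
  nlinarith [mul_pos hx hy]

theorem gauss_eq {W : Measure Pth} (hW : IsWiener W) {φ : ℝ → ℝ} {K : ℝ} (h : Tst φ K)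
    (x : ℝ) (t : ℝ≥0) (ht : 0 < t) :
    ∫ w, od φ (x + w t) ∂W = ∫ y in Ioi 0, hk t x y * φ y := by
  have hφi : ∀ m : ℝ, Integrable φ (gaussianReal m t) := fun m =>
    Integrable.of_bound h.cont.aestronglyMeasurable 1 (ae_of_all _ fun y => by
      rw [Real.norm_eq_abs, abs_of_nonneg (h.nn y)]; exact h.le y)
  have h1 : ∫ w, od φ (x + w t) ∂W = ∫ z, od φ (x + z) ∂(gaussianReal 0 t) :=
    eval_law hW t (fun z => od φ (x + z)) ((od_cont h).comp (continuous_const.add continuous_id))
  have h2 : ∫ z, od φ (x + z) ∂(gaussianReal 0 t) = ∫ y, od φ y ∂(gaussianReal x t) := by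
    have h3 : (gaussianReal 0 t).map (fun z => x + z) = gaussianReal x t := by
      have := gaussianReal_map_const_add (μ := 0) (v := t) x
      rwa [zero_add] at this
    rw [← h3, integral_map (by fun_prop) (od_cont h).aestronglyMeasurable]
  have h4 : ∫ y, φ (-y) ∂(gaussianReal x t) = ∫ y, φ y ∂(gaussianReal (-x) t) := by
    rw [← gaussianReal_map_neg, integral_map (by fun_prop) h.cont.aestronglyMeasurable]
  have h5 : Integrable (fun y => φ (-y)) (gaussianReal x t) :=
    Integrable.of_bound (h.cont.comp continuous_neg).aestronglyMeasurable 1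
      (ae_of_all _ fun y => by
        rw [Real.norm_eq_abs, abs_of_nonneg (h.nn _)]; exact h.le _)
  have h6 : ∫ y, od φ y ∂(gaussianReal x t) =
      ∫ y, φ y ∂(gaussianReal x t) - ∫ y, φ y ∂(gaussianReal (-x) t) := by
    rw [← h4, ← integral_sub (hφi x) h5]
    rfl
  have ht' : t ≠ 0 := ht.ne'
  have hpi : ∀ m : ℝ, Integrable (fun y => gaussianPDFReal m t y * φ y) := fun m =>
    (integrable_gaussianPDFReal m t).mul_bdd (c := 1) h.cont.aestronglyMeasurable
      (ae_of_all _ fun y => by rw [Real.norm_eq_abs, abs_of_nonneg (h.nn y)]; exact h.le y)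
  rw [h1, h2, h6, integral_gaussianReal_eq_integral_smul ht',
    integral_gaussianReal_eq_integral_smul ht']
  simp only [smul_eq_mul]
  rw [← integral_sub (hpi x) (hpi (-x))]
  rw [setIntegral_eq_integral_of_forall_compl_eq_zero]
  · refine integral_congr_ae (ae_of_all _ fun y => ?_)
    change gaussianPDFReal x t y * φ y - gaussianPDFReal (-x) t y * φ y = hk t x y * φ y
    rw [hk_eq]
    ring
  · intro y hy
    rw [h.z y (not_lt.1 hy), mul_zero]

theorem tst_min (a : ℝ) (ha : 0 ≤ a) (n : ℕ) : Tst (fun y => min 1 ((n : ℝ) * max (y - a) 0)) n where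
  K0 := Nat.cast_nonneg n
  nn y := le_min zero_le_one (by positivity)
  le y := min_le_left _ _
  z y hy := by
    rw [max_eq_right (by linarith), mul_zero, min_eq_right zero_le_one]
  lip b c := by
    refine (abs_min_sub_min_le_max _ _ _ _).trans ?_
    rw [sub_self, abs_zero, ← mul_sub, abs_mul, Nat.abs_cast]
    refine max_le (by positivity) (mul_le_mul_of_nonneg_left ?_ (Nat.cast_nonneg n))
    refine (abs_max_sub_max_le_abs _ _ _).trans (le_of_eq ?_)
    congr 1
    ring

theorem t_REF (hM : S_MKV) : S_REF := by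
  intro W hW x t φ hx ht hφ
  have hWp : IsProbabilityMeasure W := hW.isGaussianProcess.isProbabilityMeasure
  have hXm : Measurable (fun w : Pth => x + w t) := measurable_const.add (measurable_eval t)
  have hdm : Measurable (fun y => ENNReal.ofReal (hk t x y)) := (hk_meas t x).ennreal_ofReal
  have hfin : IsFiniteMeasure
      ((volume.restrict (Ioi (0 : ℝ))).withDensity fun y => ENNReal.ofReal (hk t x y)) :=
    isFiniteMeasure_withDensity_ofReal (hk_int t x).integrableOn.2
  have hμ : (W.restrict (Up x t)).map (fun w => x + w t) =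
      (volume.restrict (Ioi (0 : ℝ))).withDensity fun y => ENNReal.ofReal (hk t x y) := by
    refine meas_ext _ _ ?_ ?_ fun a ha n => ?_
    · rw [Measure.map_apply hXm measurableSet_Iic, Measure.restrict_apply (hXm measurableSet_Iic)]
      convert measure_empty (μ := W)
      ext w
      simp only [mem_inter_iff, mem_preimage, mem_Iic, mem_empty_iff_false, iff_false, not_and]
      intro h1 h2
      exact absurd (h2 t le_rfl) (not_lt.2 h1)
    · rw [withDensity_apply _ measurableSet_Iic, Measure.restrict_restrict measurableSet_Iic]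
      have : Iic (0 : ℝ) ∩ Ioi 0 = ∅ := by
        ext y
        simp only [mem_inter_iff, mem_Iic, mem_Ioi, mem_empty_iff_false, iff_false, not_and]
        intro h1
        exact not_lt.2 h1
      rw [this, Measure.restrict_empty, lintegral_zero_measure]
    · have hT := tst_min a ha n
      rw [integral_map hXm.aemeasurable hT.cont.aestronglyMeasurable, refl_eq hM hW hT x hx t,
        gauss_eq hW hT x t ht, integral_withDensity_eq_integral_toReal_smul hdm
          (ae_of_all _ fun y => ENNReal.ofReal_lt_top)]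
      refine setIntegral_congr_fun measurableSet_Ioi fun y hy => ?_
      change hk t x y * _ = (ENNReal.ofReal (hk t x y)).toReal • _
      rw [ENNReal.toReal_ofReal (hk_nonneg t hx hy), smul_eq_mul]
  have h1 : ∫⁻ w in Up x t, φ (x + w t) ∂W =
      ∫⁻ y, φ y ∂((W.restrict (Up x t)).map (fun w => x + w t)) := by
    rw [lintegral_map hφ hXm]
  rw [h1, hμ, lintegral_withDensity_eq_lintegral_mul _ hdm hφ]
  rfl

end Pool.Agent.R606.BW
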