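import Mathlib
import Pool.Agent.R497.TB.Defs
import Pool.Agent.Y86.MC.NiceB

/-!
Project TB (helper497), piece BGC: Borel-Cantelli over the grid boxes with longest side `i`.
-/

set_option autoImplicit false

namespace Pool.Agent.R606.TB

open MeasureTheory Filter Finset
open Pool.Agent.R497.TB (S_BGC)

universe u

theorem t_BGC : S_BGC.{u} := by
  intro Ω _ ν _ k i D C T₀ hDm hDb hD
  let S : ℕ → Finset (Fin k → ℕ) := fun T =>
    Fintype.piFinset fun l : Fin k => if l = i then {T} else range (T + 1)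
  have hSmem : ∀ T t, t ∈ S T ↔ t i = T ∧ ∀ l, t l ≤ t i := by
    intro T t
    constructor
    · intro ht
      have h1 := Fintype.mem_piFinset.1 ht
      have h2 : t i = T := by
        have h3 := h1 i
        rw [if_pos rfl] at h3
        exact Finset.mem_singleton.1 h3
      refine ⟨h2, fun l => ?_⟩
      by_cases hl : l = i
      · rw [hl]
      · have h3 := h1 l
        rw [if_neg hl] at h3
        have h4 := Finset.mem_range.1 h3
        omega
    · rintro ⟨h1, h2⟩
      refine Fintype.mem_piFinset.2 fun l => ?_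
      by_cases hl : l = i
      · rw [if_pos hl, hl, h1]
        exact Finset.mem_singleton_self T
      · rw [if_neg hl]
        have h3 := h2 l
        exact Finset.mem_range.2 (by omega)
  have hk : 0 < k := Fin.pos i
  have hScard : ∀ T, ((S T).card : ℝ) = ((T : ℝ) + 1) ^ (k - 1) := by
    intro T
    have h1 : (S T).card = (T + 1) ^ (k - 1) := by
      change (Fintype.piFinset fun l : Fin k => if l = i then {T} else range (T + 1)).card = _
      rw [Fintype.card_piFinset, ← Finset.mul_prod_erase _ _ (Finset.mem_univ i), if_pos rfl,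
        Finset.card_singleton, one_mul]
      have h2 : ∀ l ∈ (univ : Finset (Fin k)).erase i,
          (if l = i then ({T} : Finset ℕ) else range (T + 1)).card = T + 1 := by
        intro l hl
        rw [if_neg (Finset.ne_of_mem_erase hl), Finset.card_range]
      rw [Finset.prod_congr rfl h2, Finset.prod_const, Finset.card_erase_of_mem (Finset.mem_univ i),
        Finset.card_univ, Fintype.card_fin]
    exact_mod_cast h1
  have hint : ∀ t, Integrable (fun ω => (D t ω) ^ 2) ν := by
    intro t
    refine Integrable.of_bound ((hDm t).pow_const 2).aestronglyMeasurable 1 (ae_of_all _ fun ω => ?_)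
    rw [Real.norm_eq_abs, abs_of_nonneg (sq_nonneg _), sq_le_one_iff_abs_le_one]
    exact hDb t ω
  have hs : Summable fun T : ℕ => C / (((T + T₀ : ℕ) : ℝ) + 1) ^ 2 := by
    have h1 : Summable fun n : ℕ => 1 / ((n : ℝ)) ^ 2 :=
      Real.summable_one_div_nat_pow.2 one_lt_two
    have h2 := ((summable_nat_add_iff (T₀ + 1)).2 h1).mul_left C
    refine h2.congr fun T => ?_
    push_cast
    rw [mul_one_div, ← add_assoc]
  have key := Pool.Agent.Y86.MC.ae_summable_of ν
    (fun T ω => ∑ t ∈ S (T + T₀), (D t ω) ^ 2)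
    (fun T => Finset.measurable_sum _ fun t _ => (hDm t).pow_const 2)
    (fun T ω => Finset.sum_nonneg fun t _ => sq_nonneg _) _ hs
    (fun T => integrable_finsetSum _ fun t _ => hint t) (fun T => by
      rw [integral_finsetSum _ fun t _ => hint t]
      have h1 : ∀ t ∈ S (T + T₀), ∫ ω, (D t ω) ^ 2 ∂ν ≤ C / (((T + T₀ : ℕ) : ℝ) + 1) ^ (k + 1) := by
        intro t ht
        obtain ⟨h2, h3⟩ := (hSmem _ _).1 ht
        rw [← h2]
        exact hD t (by omega) h3
      refine (Finset.sum_le_sum h1).trans ?_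
      rw [Finset.sum_const, nsmul_eq_mul, hScard]
      have h4 : (0 : ℝ) < ((T + T₀ : ℕ) : ℝ) + 1 := by positivity
      refine le_of_eq ?_
      have h5 : (((T + T₀ : ℕ) : ℝ) + 1) ^ (k + 1) =
          (((T + T₀ : ℕ) : ℝ) + 1) ^ (k - 1) * (((T + T₀ : ℕ) : ℝ) + 1) ^ 2 := by
        rw [← pow_add]
        congr 1
        omega
      rw [h5]
      field_simp)
  filter_upwards [key] with ω hω
  intro η hη
  have h2 := hω.tendsto_atTop_zero
  have h3 : ∀ᶠ T : ℕ in atTop, ∑ t ∈ S (T + T₀), (D t ω) ^ 2 < η ^ 2 :=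
    h2.eventually (gt_mem_nhds (by positivity))
  obtain ⟨T₂, hT₂⟩ := eventually_atTop.1 h3
  refine ⟨T₂ + T₀, fun t ht1 ht2 => ?_⟩
  have h4 : t ∈ S (t i - T₀ + T₀) := (hSmem _ _).2 ⟨by omega, ht2⟩
  have h5 := hT₂ (t i - T₀) (by omega)
  have h6 : (D t ω) ^ 2 ≤ ∑ t ∈ S (t i - T₀ + T₀), (D t ω) ^ 2 :=
    Finset.single_le_sum (f := fun t => (D t ω) ^ 2) (fun _ _ => sq_nonneg _) h4
  exact abs_le_of_sq_le_sq (h6.trans h5.le) hη.le

end Pool.Agent.R606.TB
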